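import Pool.Agent.TH966.CF.FSD

set_option autoImplicit false

/-! Intersections of independent random closed sets: abstract codimension formula. -/

namespace Pool.Agent.R970.Ind

open Pool.Agent.TH966.CF MeasureTheory Metric Set Filter Topology
open scoped ENNReal NNReal

/-- A sequence of random closed sets, of codimension `α` in `D`. -/
structure IsRS {X : Type*} [MeasurableSpace X] (μ : Measure X) (T : ℕ → X → Set ℂ) (D : Set ℂ)
    (α : ℝ) : Prop where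
  closed : ∀ n x, IsClosed (T n x)
  meas : ∀ (n : ℕ) (S V : Set ℂ), IsCompact S → IsOpen V → MeasurableSet {x | T n x ∩ S ⊆ V}
  hit : ∀ n m : ℕ, ∃ (C : ℝ≥0∞) (r0 : ℝ), C ≠ ∞ ∧ 0 < r0 ∧ ∀ z ∈ inn D m, ∀ r : ℝ, 0 < r →
    r ≤ r0 → μ (Hit (T n) z r) ≤ C * ENNReal.ofReal r ^ α
  low : ∀ S : Set ℂ, IsSigmaCompact S → S ⊆ D →
    dimH S - ENNReal.ofReal α ≤ essSup (fun x => dimH ((⋃ n, T n x) ∩ S)) μ

variable {X Y : Type*} [MeasurableSpace X] [MeasurableSpace Y] {μ : Measure X} {ν : Measure Y}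
  {T : ℕ → X → Set ℂ} {T' : ℕ → Y → Set ℂ} {D D' : Set ℂ} {α α' : ℝ}

lemma IsRS.hit_meas (h : IsRS μ T D α) (n : ℕ) (z : ℂ) (r : ℝ) : MeasurableSet (Hit (T n) z r) := by
  have h1 := (h.meas n (closedBall z r) ∅ (isCompact_closedBall z r) isOpen_empty).compl
  convert h1 using 1
  ext x
  show (T n x ∩ closedBall z r).Nonempty ↔ ¬ (T n x ∩ closedBall z r ⊆ ∅)
  rw [Set.subset_empty_iff, Set.nonempty_iff_ne_empty]

lemma inn_inter (D D' : Set ℂ) (m : ℕ) : inn (D ∩ D') m ⊆ inn D m ∩ inn D' m := by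
  intro z hz
  exact ⟨fun w hw => (hz hw).1, fun w hw => (hz hw).2⟩

lemma sigma_inter {S C : Set ℂ} (hS : IsSigmaCompact S) (hC : IsClosed C) : IsSigmaCompact (C ∩ S) := by
  obtain ⟨K, hK, rfl⟩ := hS
  rw [Set.inter_iUnion]
  exact isSigmaCompact_iUnion_of_isCompact _ fun n => (hK n).inter_left hC

/-- separation of two compact sets by a finite union of basic open sets -/
lemma sep {A B : Set ℂ} (hA : IsCompact A) (hB : IsClosed B) (h : Disjoint A B) :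
    ∃ F : Finset (TopologicalSpace.countableBasis ℂ), 
      A ⊆ (⋃ b ∈ F, (b : Set ℂ)) ∧ B ⊆ (closure (⋃ b ∈ F, (b : Set ℂ)))ᶜ := by
  classical
  have hb := TopologicalSpace.isBasis_countableBasis ℂ
  rcases A.eq_empty_or_nonempty with rfl | hAne
  · exact ⟨∅, by simp, by simp⟩
  have hex : ∀ x ∈ A, ∃ b : TopologicalSpace.countableBasis ℂ, x ∈ (b : Set ℂ) ∧ closure (b : Set ℂ) ⊆ Bᶜ := by
    intro x hx
    have hx2 : x ∈ Bᶜ := fun hxB => Set.disjoint_left.1 h hx hxB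
    obtain ⟨t, ht1, ht2, ht3⟩ := hb.exists_closure_subset (hB.isOpen_compl.mem_nhds hx2)
    exact ⟨⟨t, ht1⟩, ht2, ht3⟩
  have : Nonempty (TopologicalSpace.countableBasis ℂ) := by
    obtain ⟨x, hx⟩ := hAne
    obtain ⟨b, -⟩ := hex x hx
    exact ⟨b⟩
  choose! g hg1 hg2 using hex
  obtain ⟨t, ht1, ht2⟩ := hA.elim_nhds_subcover (fun x => (g x : Set ℂ)) (fun x hx => 
    (hb.isOpen (g x).2).mem_nhds (hg1 x hx))
  refine ⟨t.image g, ?_, ?_⟩
  · refine ht2.trans ?_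
    intro y hy
    simp only [mem_iUnion, Finset.mem_image] at hy ⊢
    obtain ⟨x, hx, hy⟩ := hy
    exact ⟨g x, ⟨x, hx, rfl⟩, hy⟩
  · intro y hy hcl
    have h1 : closure (⋃ b ∈ t.image g, (b : Set ℂ)) = ⋃ b ∈ t.image g, closure (b : Set ℂ) := by
      exact (t.image g).closure_biUnion _
    rw [h1] at hcl
    simp only [mem_iUnion, Finset.mem_image] at hcl
    obtain ⟨b, ⟨x, hx, rfl⟩, hyb⟩ := hcl
    exact hg2 x (ht1 x hx) hyb hy

/-- Product of two independent systems. -/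
theorem IsRS.prod [IsProbabilityMeasure μ] [IsProbabilityMeasure ν] (h : IsRS μ T D α) 
    (h' : IsRS ν T' D' α') (hα : 0 ≤ α) (hα' : 0 ≤ α') : 
    IsRS (μ.prod ν) (fun n x => T n.unpair.1 x.1 ∩ T' n.unpair.2 x.2) (D ∩ D') (α + α') where
  closed n x := (h.closed _ _).inter (h'.closed _ _)
  meas := by
    intro n S V hS hV
    have e : {x : X × Y | T n.unpair.1 x.1 ∩ T' n.unpair.2 x.2 ∩ S ⊆ V} = 
        ⋃ F : Finset (TopologicalSpace.countableBasis ℂ), 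
          {x | T n.unpair.1 x ∩ S ⊆ (⋃ b ∈ F, (b : Set ℂ)) ∪ V} ×ˢ 
          {y | T' n.unpair.2 y ∩ S ⊆ (closure (⋃ b ∈ F, (b : Set ℂ)))ᶜ} := by
      ext ⟨x, y⟩
      simp only [Set.mem_iUnion, Set.mem_prod]
      constructor
      · intro hxy
        have hxy' : T n.unpair.1 x ∩ T' n.unpair.2 y ∩ S ⊆ V := hxy
        have h1 : IsCompact ((T n.unpair.1 x ∩ S) \ V) := 
          (hS.inter_left (h.closed _ _)).diff hV
        have h2 : IsClosed (T' n.unpair.2 y ∩ S) := (h'.closed _ _).inter hS.isClosed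
        obtain ⟨F, hF1, hF2⟩ := sep h1 h2 (by
          rw [Set.disjoint_left]
          rintro z ⟨⟨hz1, hz2⟩, hz3⟩ ⟨hz4, -⟩
          exact hz3 (hxy' ⟨⟨hz1, hz4⟩, hz2⟩))
        refine ⟨F, ?_, hF2⟩
        intro z hz
        by_cases hzV : z ∈ V
        · exact Or.inr hzV
        · exact Or.inl (hF1 ⟨hz, hzV⟩)
      · rintro ⟨F, h1, h2⟩
        have h1' : T n.unpair.1 x ∩ S ⊆ (⋃ b ∈ F, (b : Set ℂ)) ∪ V := h1
        have h2' : T' n.unpair.2 y ∩ S ⊆ (closure (⋃ b ∈ F, (b : Set ℂ)))ᶜ := h2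
        show T n.unpair.1 x ∩ T' n.unpair.2 y ∩ S ⊆ V
        rintro z ⟨⟨hz1, hz2⟩, hz3⟩
        rcases h1' ⟨hz1, hz3⟩ with h3 | h3
        · exact absurd (subset_closure h3) (h2' ⟨hz2, hz3⟩)
        · exact h3
    rw [e]
    refine MeasurableSet.iUnion fun F => ?_
    have hF : IsOpen (⋃ b ∈ F, (b : Set ℂ)) := isOpen_biUnion fun b _ => 
      (TopologicalSpace.isBasis_countableBasis ℂ).isOpen b.2
    exact (h.meas _ S _ hS (hF.union hV)).prod (h'.meas _ S _ hS isClosed_closure.isOpen_compl)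
  hit := by
    intro n m
    obtain ⟨C, r0, hC, hr0, hb⟩ := h.hit n.unpair.1 m
    obtain ⟨C', r0', hC', hr0', hb'⟩ := h'.hit n.unpair.2 m
    refine ⟨C * C', min r0 r0', ENNReal.mul_ne_top hC hC', lt_min hr0 hr0', ?_⟩
    intro z hz r hr hrr
    have hz' := inn_inter D D' m hz
    have h1 := hb z hz'.1 r hr (hrr.trans (min_le_left _ _))
    have h2 := hb' z hz'.2 r hr (hrr.trans (min_le_right _ _))
    have hsub : Hit (fun x : X × Y => T n.unpair.1 x.1 ∩ T' n.unpair.2 x.2) z r ⊆ 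
        Hit (T n.unpair.1) z r ×ˢ Hit (T' n.unpair.2) z r := by
      rintro ⟨x, y⟩ ⟨w, ⟨h3, h4⟩, h5⟩
      exact ⟨⟨w, h3, h5⟩, ⟨w, h4, h5⟩⟩
    calc (μ.prod ν) (Hit (fun x : X × Y => T n.unpair.1 x.1 ∩ T' n.unpair.2 x.2) z r) 
        ≤ (μ.prod ν) (Hit (T n.unpair.1) z r ×ˢ Hit (T' n.unpair.2) z r) := measure_mono hsub
      _ = μ (Hit (T n.unpair.1) z r) * ν (Hit (T' n.unpair.2) z r) := Measure.prod_prod _ _
      _ ≤ (C * ENNReal.ofReal r ^ α) * (C' * ENNReal.ofReal r ^ α') := mul_le_mul' h1 h2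
      _ = C * C' * ENNReal.ofReal r ^ (α + α') := by
          rw [ENNReal.rpow_add _ _ (by simpa using hr) ENNReal.ofReal_ne_top]
          ring
  low := by
    intro S hS hSD
    have hU : ∀ x : X × Y, (⋃ n : ℕ, T n.unpair.1 x.1 ∩ T' n.unpair.2 x.2) = 
        (⋃ n, T n x.1) ∩ (⋃ n, T' n x.2) := by
      intro x
      ext z
      simp only [mem_iUnion, mem_inter_iff]
      constructor
      · rintro ⟨n, h1, h2⟩
        exact ⟨⟨_, h1⟩, ⟨_, h2⟩⟩
      · rintro ⟨⟨a, h1⟩, ⟨b, h2⟩⟩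
        refine ⟨Nat.pair a b, ?_⟩
        rw [Nat.unpair_pair]
        exact ⟨h1, h2⟩
    simp only [hU]
    set c := essSup (fun x : X × Y => dimH ((⋃ n, T n x.1) ∩ (⋃ n, T' n x.2) ∩ S)) (μ.prod ν) with hc
    have h1 : ∀ᵐ x ∂(μ.prod ν), dimH ((⋃ n, T n x.1) ∩ (⋃ n, T' n x.2) ∩ S) ≤ c := 
      ENNReal.ae_le_essSup _
    have h2 := Measure.ae_ae_of_ae_prod h1
    have h3 : ∀ᵐ x ∂μ, dimH ((⋃ n, T n x) ∩ S) ≤ c + ENNReal.ofReal α' := by
      filter_upwards [h2] with x hx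
      have hσ : IsSigmaCompact ((⋃ n, T n x) ∩ S) := by
        rw [Set.iUnion_inter]
        exact isSigmaCompact_iUnion _ fun n => sigma_inter hS (h.closed n x)
      have h4 := h'.low ((⋃ n, T n x) ∩ S) hσ (fun z hz => (hSD hz.2).2)
      have h5 : essSup (fun y => dimH ((⋃ n, T' n y) ∩ ((⋃ n, T n x) ∩ S))) ν ≤ c := by
        refine essSup_le_of_ae_le _ ?_
        filter_upwards [hx] with y hy
        refine le_trans (le_of_eq ?_) hy
        congr 1
        ext z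
        simp only [mem_inter_iff]
        tauto
      exact tsub_le_iff_right.1 (h4.trans h5)
    have h6 : essSup (fun x => dimH ((⋃ n, T n x) ∩ S)) μ ≤ c + ENNReal.ofReal α' := essSup_le_of_ae_le _ h3
    have h7 := (h.low S hS (fun z hz => (hSD hz).1)).trans h6
    rw [ENNReal.ofReal_add hα hα', tsub_add_eq_tsub_tsub]
    exact tsub_le_iff_right.2 h7

end Pool.Agent.R970.Ind
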