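import Pool.Agent.R970.Ind.Pi
import Pool.Agent.H389R2.Dim.Lower

set_option autoImplicit false

/-! Measurability of the dimension and almost sure lower bounds. -/

namespace Pool.Agent.R970.Ind

open Pool.Agent.TH966.CF Pool.Agent.H389R2.Dim MeasureTheory Metric Set Filter Topology
open scoped ENNReal NNReal

/-- finite covers with small content -/
def Cov (t c : ℝ) (K : Set ℂ) : Prop := ∃ F : Finset (ℂ × ℝ), (∀ p ∈ F, 0 < p.2) ∧
  K ⊆ (⋃ p ∈ F, ball p.1 p.2) ∧ ∑ p ∈ F, p.2 ^ t < c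

lemma cov_of_dim {K : Set ℂ} (hK : IsCompact K) {t : ℝ} (ht : 0 < t) (h : dimH K < ENNReal.ofReal t) 
    {c : ℝ} (hc : 0 < c) : Cov t c K := by
  by_contra hcon
  have hg : ∀ δ : ℝ, 0 < δ → Good t δ c K := by
    intro δ hδ s hs hcov
    by_contra h2
    exact hcon ⟨s, fun p hp => hδ.trans_le (hs p hp), hcov, not_le.1 h2⟩
  exact absurd (le_dimH_of_good ht hc hK hg) (not_le.2 h)

lemma dim_of_cov {K : Set ℂ} {t : ℝ} (ht : 0 < t) (h : ∀ n : ℕ, Cov t (1 / ((n : ℝ) + 1)) K) : 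
    dimH K ≤ ENNReal.ofReal t := by
  choose F hF1 hF2 hF3 using h
  have h0 : μH[t] K = 0 := by
    have hlim : Tendsto (fun n : ℕ => (1 / ((n : ℝ) + 1))) atTop (𝓝 0) := tendsto_one_div_add_atTop_nhds_zero_nat
    have hr : Tendsto (fun n : ℕ => ENNReal.ofReal (2 * (1 / ((n : ℝ) + 1)) ^ (1 / t))) atTop (𝓝 0) := by
      have h1 : Tendsto (fun n : ℕ => 2 * (1 / ((n : ℝ) + 1)) ^ (1 / t)) atTop (𝓝 (2 * 0 ^ (1 / t))) := 
        (hlim.rpow_const (Or.inr (by positivity))).const_mul 2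
      rw [Real.zero_rpow (by positivity), mul_zero] at h1
      have := ENNReal.tendsto_ofReal h1
      rwa [ENNReal.ofReal_zero] at this
    have hsm : ∀ n, ∀ p ∈ F n, p.2 ≤ (1 / ((n : ℝ) + 1)) ^ (1 / t) := by
      intro n p hp
      have h1 : p.2 ^ t ≤ ∑ q ∈ F n, q.2 ^ t := 
        Finset.single_le_sum (f := fun q : ℂ × ℝ => q.2 ^ t) 
          (fun q hq => Real.rpow_nonneg (hF1 n q hq).le _) hp
      have h2 := (h1.trans_lt (hF3 n)).le
      have h3 := Real.rpow_le_rpow (Real.rpow_nonneg (hF1 n p hp).le _) h2 (by positivity : 0 ≤ 1 / t)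
      rwa [← Real.rpow_mul (hF1 n p hp).le, mul_one_div_cancel ht.ne', Real.rpow_one] at h3
    have hed : ∀ p : ℂ × ℝ, 0 < p.2 → ediam (ball p.1 p.2) ≤ ENNReal.ofReal (2 * p.2) := by
      intro p hp
      rw [← Metric.eball_ofReal, ENNReal.ofReal_mul (by norm_num)]
      refine ediam_eball_le.trans (le_of_eq ?_)
      norm_num
    have h1 := Measure.hausdorffMeasure_le_liminf_sum (ι := fun n => F n) t K (l := atTop) _ hr 
      (fun n p => ball p.1.1 p.1.2) 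
      (Eventually.of_forall fun n p => (hed _ (hF1 n p.1 p.2)).trans 
        (ENNReal.ofReal_le_ofReal (by have := hsm n p.1 p.2; linarith)))
      (Eventually.of_forall fun n => by
        refine (hF2 n).trans ?_
        intro z hz
        simp only [mem_iUnion] at hz ⊢
        obtain ⟨p, hp, hz⟩ := hz
        exact ⟨⟨p, hp⟩, hz⟩)
    refine le_antisymm (h1.trans ?_) zero_le
    have h2 : Tendsto (fun n : ℕ => ENNReal.ofReal (2 ^ t * (1 / ((n : ℝ) + 1)))) atTop (𝓝 0) := by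
      have := ENNReal.tendsto_ofReal (hlim.const_mul (2 ^ t))
      rwa [mul_zero, ENNReal.ofReal_zero] at this
    rw [← h2.liminf_eq]
    refine liminf_le_liminf (Eventually.of_forall fun n => ?_)
    calc ∑ p : F n, ediam (ball p.1.1 p.1.2) ^ t ≤ ∑ p : F n, ENNReal.ofReal (2 ^ t * p.1.2 ^ t) := by
          refine Finset.sum_le_sum fun p _ => ?_
          have hp := hF1 n p.1 p.2
          refine (ENNReal.rpow_le_rpow (hed _ hp) ht.le).trans (le_of_eq ?_)
          rw [ENNReal.ofReal_rpow_of_pos (by positivity), Real.mul_rpow (by norm_num) hp.le]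
      _ = ENNReal.ofReal (∑ p : F n, 2 ^ t * p.1.2 ^ t) := by
          rw [ENNReal.ofReal_sum_of_nonneg]
          intro p _
          have hp := hF1 n p.1 p.2
          positivity
      _ ≤ ENNReal.ofReal (2 ^ t * (1 / ((n : ℝ) + 1))) := by
          apply ENNReal.ofReal_le_ofReal
          rw [← Finset.mul_sum]
          have e : ∑ p : F n, p.1.2 ^ t = ∑ p ∈ F n, p.2 ^ t := 
            Finset.sum_coe_sort (F n) (fun p => p.2 ^ t)
          rw [e]
          have := (hF3 n).le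
          gcongr
  have h2 := dimH_le_of_hausdorffMeasure_ne_top (d := t.toNNReal) (s := K) (by
    rw [Real.coe_toNNReal t ht.le, h0]; exact ENNReal.zero_ne_top)
  exact h2

/-- events of the form: contained in one of a family of open sets -/
lemma ev_meas {X : Type*} [MeasurableSpace X] {T : X → Set ℂ} (hT : ∀ x, IsClosed (T x)) 
    {S : Set ℂ} (hS : IsCompact S)
    (hm : ∀ V : Set ℂ, IsOpen V → MeasurableSet {x | T x ∩ S ⊆ V}) (O : Set (Set ℂ)) 
    (hO : ∀ V ∈ O, IsOpen V) : MeasurableSet {x | ∃ V ∈ O, T x ∩ S ⊆ V} := by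
  classical
  have e : {x | ∃ V ∈ O, T x ∩ S ⊆ V} = ⋃ F : {F : Finset (TopologicalSpace.countableBasis ℂ) // 
      ∃ V ∈ O, (⋃ b ∈ F, (b : Set ℂ)) ⊆ V}, {x | T x ∩ S ⊆ ⋃ b ∈ F.1, (b : Set ℂ)} := by
    ext x
    simp only [mem_iUnion]
    constructor
    · rintro ⟨V, hV, hx⟩
      obtain ⟨F, h1, h2⟩ := sep (hS.inter_left (hT x)) (hO V hV).isClosed_compl 
        (Set.disjoint_left.2 fun z hz hz2 => hz2 (hx hz))
      refine ⟨⟨F, V, hV, ?_⟩, h1⟩
      intro z hz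
      by_contra hzV
      exact h2 hzV (subset_closure hz)
    · rintro ⟨⟨F, V, hV, hF⟩, hx⟩
      exact ⟨V, hV, hx.trans hF⟩
  rw [e]
  refine MeasurableSet.iUnion fun F => hm _ ?_
  exact isOpen_biUnion fun b _ => (TopologicalSpace.isBasis_countableBasis ℂ).isOpen b.2

lemma dim_meas0 {X : Type*} [MeasurableSpace X] {T : X → Set ℂ} (hT : ∀ x, IsClosed (T x)) 
    {S : Set ℂ} (hS : IsCompact S)
    (hm : ∀ V : Set ℂ, IsOpen V → MeasurableSet {x | T x ∩ S ⊆ V}) : 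
    Measurable (fun x => dimH (T x ∩ S)) := by
  apply measurable_of_Iio
  intro a
  have e : (fun x => dimH (T x ∩ S)) ⁻¹' Iio a = ⋃ q : {q : ℚ // 0 < q ∧ ENNReal.ofReal q < a}, 
      ⋂ n : ℕ, {x | Cov (q.1 : ℝ) (1 / ((n : ℝ) + 1)) (T x ∩ S)} := by
    ext x
    simp only [mem_preimage, mem_Iio, mem_iUnion, mem_iInter]
    constructor
    · intro hx
      obtain ⟨b, hb1, hb2⟩ := exists_between hx
      obtain ⟨q, hq0, hq1, hq2⟩ := ENNReal.lt_iff_exists_rat_btwn.1 hb2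
      have hq1' : b < ENNReal.ofReal q := hq1
      have hq2' : ENNReal.ofReal q < a := hq2
      have hqpos : (0 : ℝ) < q := by
        by_contra hcon
        rw [ENNReal.ofReal_of_nonpos (not_lt.1 hcon)] at hq1'
        exact absurd hq1' (not_lt.2 zero_le)
      refine ⟨⟨q, by exact_mod_cast hqpos, hq2'⟩, fun n => ?_⟩
      exact cov_of_dim (hS.inter_left (hT x)) hqpos (hb1.trans hq1') (by positivity)
    · rintro ⟨⟨q, hq0, hq⟩, hx⟩
      exact (dim_of_cov (by exact_mod_cast hq0) hx).trans_lt hq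
  rw [e]
  refine MeasurableSet.iUnion fun q => MeasurableSet.iInter fun n => ?_
  have := ev_meas hT hS hm {V | ∃ F : Finset (ℂ × ℝ), (∀ p ∈ F, 0 < p.2) ∧
    V = (⋃ p ∈ F, ball p.1 p.2) ∧ ∑ p ∈ F, p.2 ^ (q.1 : ℝ) < 1 / ((n : ℝ) + 1)} (by
      rintro V ⟨F, -, rfl, -⟩
      exact isOpen_biUnion fun p _ => isOpen_ball)
  convert this using 1
  ext x
  constructor
  · rintro ⟨F, h1, h2, h3⟩
    exact ⟨_, ⟨F, h1, rfl, h3⟩, h2⟩
  · rintro ⟨_, ⟨F, h1, rfl, h3⟩, h2⟩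
    exact ⟨F, h1, h2, h3⟩

variable {X Y : Type*} [MeasurableSpace X] [MeasurableSpace Y] {μ : Measure X} {ν : Measure Y}
  {T : ℕ → X → Set ℂ} {T' : ℕ → Y → Set ℂ} {D D' : Set ℂ} {α α' : ℝ}

theorem IsRS.dim_meas (h : IsRS μ T D α) {S : Set ℂ} (hS : IsSigmaCompact S) : 
    Measurable (fun x => dimH ((⋃ n, T n x) ∩ S)) := by
  obtain ⟨K, hK, rfl⟩ := hS
  have e : (fun x => dimH ((⋃ n, T n x) ∩ ⋃ m, K m)) = fun x => ⨆ n, ⨆ m, dimH (T n x ∩ K m) := by
    funext x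
    rw [Set.iUnion_inter, dimH_iUnion]
    congr 1
    funext n
    rw [Set.inter_iUnion, dimH_iUnion]
  rw [e]
  exact Measurable.iSup fun n => Measurable.iSup fun m => 
    dim_meas0 (h.closed n) (hK m) (fun V hV => h.meas n _ V (hK m) hV)

omit [MeasurableSpace X] [MeasurableSpace Y] in
/-- the union of the sets of a system -/
lemma union_prod (T : ℕ → X → Set ℂ) (T' : ℕ → Y → Set ℂ) (x : X × Y) : 
    (⋃ n : ℕ, T n.unpair.1 x.1 ∩ T' n.unpair.2 x.2) = (⋃ n, T n x.1) ∩ (⋃ n, T' n x.2) := by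
  ext z
  simp only [mem_iUnion, mem_inter_iff]
  constructor
  · rintro ⟨n, h1, h2⟩
    exact ⟨⟨_, h1⟩, ⟨_, h2⟩⟩
  · rintro ⟨⟨a, h1⟩, ⟨b, h2⟩⟩
    refine ⟨Nat.pair a b, ?_⟩
    rw [Nat.unpair_pair]
    exact ⟨h1, h2⟩

/-- the lower bound holds almost surely -/
def LowAe (μ : Measure X) (T : ℕ → X → Set ℂ) (D : Set ℂ) (α : ℝ) : Prop :=
  ∀ S : Set ℂ, IsSigmaCompact S → S ⊆ D → 
    ∀ᵐ x ∂μ, dimH S - ENNReal.ofReal α ≤ dimH ((⋃ n, T n x) ∩ S)

lemma IsRS.sigma (h : IsRS μ T D α) {S : Set ℂ} (hS : IsSigmaCompact S) (x : X) : 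
    IsSigmaCompact ((⋃ n, T n x) ∩ S) := by
  rw [Set.iUnion_inter]
  exact isSigmaCompact_iUnion _ fun n => sigma_inter hS (h.closed n x)

/-- conditional formula -/
theorem cond [IsProbabilityMeasure μ] [IsProbabilityMeasure ν] (h : IsRS μ T D α) 
    (h' : IsRS ν T' D' α') (hα : 0 ≤ α) (hα' : 0 < α') (hD' : IsOpen D') (hl : LowAe ν T' D' α')
    {S : Set ℂ} (hS : IsSigmaCompact S) (hSD : S ⊆ D ∩ D') : 
    ∀ᵐ z ∂(μ.prod ν), dimH ((⋃ n, T n z.1) ∩ (⋃ n, T' n z.2) ∩ S) = 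
      dimH ((⋃ n, T n z.1) ∩ S) - ENNReal.ofReal α' := by
  have hm1 : Measurable (fun z : X × Y => dimH ((⋃ n, T n z.1) ∩ (⋃ n, T' n z.2) ∩ S)) := by
    have := (h.prod h' hα hα'.le).dim_meas hS
    simpa only [union_prod] using this
  have hm2 : Measurable (fun z : X × Y => dimH ((⋃ n, T n z.1) ∩ S) - ENNReal.ofReal α') :=
    ((h.dim_meas hS).comp measurable_fst).sub measurable_const
  rw [Measure.ae_prod_iff_ae_ae (measurableSet_eq_fun hm1 hm2)]
  refine Eventually.of_forall fun x => ?_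
  have hσ := h.sigma hS x
  have hsub : (⋃ n, T n x) ∩ S ⊆ D' := fun z hz => (hSD hz.2).2
  filter_upwards [hl _ hσ hsub, h'.upper hα' hD' hsub] with y h1 h2
  have e : (⋃ n, T n x) ∩ (⋃ n, T' n y) ∩ S = (⋃ n, T' n y) ∩ ((⋃ n, T n x) ∩ S) := by
    ext z
    simp only [mem_inter_iff]
    tauto
  rw [e]
  exact le_antisymm h2.1 h1

lemma LowAe.prod [IsProbabilityMeasure μ] [IsProbabilityMeasure ν] (h : IsRS μ T D α) 
    (h' : IsRS ν T' D' α') (hα : 0 ≤ α) (hα' : 0 ≤ α') (hl : LowAe μ T D α) (hl' : LowAe ν T' D' α') :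
    LowAe (μ.prod ν) (fun n x => T n.unpair.1 x.1 ∩ T' n.unpair.2 x.2) (D ∩ D') (α + α') := by
  intro S hS hSD
  have hm1 : Measurable (fun z : X × Y => dimH ((⋃ n : ℕ, T n.unpair.1 z.1 ∩ T' n.unpair.2 z.2) ∩ S)) :=
    (h.prod h' hα hα').dim_meas hS
  rw [Measure.ae_prod_iff_ae_ae (measurableSet_le measurable_const hm1)]
  filter_upwards [hl S hS (fun z hz => (hSD hz).1)] with x hx
  have hσ := h.sigma hS x
  have hsub : (⋃ n, T n x) ∩ S ⊆ D' := fun z hz => (hSD hz.2).2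
  filter_upwards [hl' _ hσ hsub] with y hy
  have e : (⋃ n : ℕ, T n.unpair.1 x ∩ T' n.unpair.2 y) ∩ S = (⋃ n, T' n y) ∩ ((⋃ n, T n x) ∩ S) := by
    rw [union_prod T T' (x, y)]
    ext z
    simp only [mem_inter_iff]
    tauto
  show dimH S - ENNReal.ofReal (α + α') ≤ dimH ((⋃ n : ℕ, T n.unpair.1 x ∩ T' n.unpair.2 y) ∩ S)
  rw [e, ENNReal.ofReal_add hα hα', tsub_add_eq_tsub_tsub]
  exact (tsub_le_tsub_right hx _).trans hy

lemma LowAe.univ [IsProbabilityMeasure μ] : LowAe μ (fun _ _ => Set.univ) Set.univ 0 := by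
  intro S _ _
  refine Eventually.of_forall fun x => ?_
  rw [Set.iUnion_const, Set.univ_inter]
  exact tsub_le_self

lemma LowAe.map (hl : LowAe ν T' D α) (e : X ≃ᵐ Y) (he : MeasurePreserving e μ ν) :
    LowAe μ (fun n x => T' n (e x)) D α := by
  intro S hS hSD
  have h1 := hl S hS hSD
  rw [← he.map_eq] at h1
  exact (e.measurableEmbedding.ae_map_iff).1 h1

lemma LowAe.congr (h : LowAe μ T D α) {T2 : ℕ → X → Set ℂ} {D2 : Set ℂ} {α2 : ℝ} (h1 : T = T2)
    (h2 : D = D2) (h3 : α = α2) : LowAe μ T2 D2 α2 := by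
  subst h1 h2 h3; exact h

theorem pi_system_ae (hα : 0 ≤ α) : ∀ (k : ℕ) (μ : Fin k → Measure X) (_ : ∀ i, IsProbabilityMeasure (μ i))
    (T : Fin k → ℕ → X → Set ℂ) (D : Fin k → Set ℂ) (_ : ∀ i, IsRS (μ i) (T i) (D i) α)
    (_ : ∀ i, LowAe (μ i) (T i) (D i) α),
    ∃ T' : ℕ → (Fin k → X) → Set ℂ, IsRS (Measure.pi μ) T' (⋂ i, D i) (k * α) ∧ 
      LowAe (Measure.pi μ) T' (⋂ i, D i) (k * α) ∧ ∀ x, (⋃ n, T' n x) = ⋂ i, ⋃ n, T i n (x i) := by
  intro k
  induction k with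
  | zero =>
    intro μ hμ T D h hl
    refine ⟨fun _ _ => Set.univ, ?_, ?_, ?_⟩
    · refine (IsRS.univ (μ := Measure.pi μ)).congr rfl ?_ ?_
      · simp
      · simp
    · refine (LowAe.univ (μ := Measure.pi μ)).congr rfl ?_ ?_
      · simp
      · simp
    · intro x
      rw [Set.iUnion_const]
      simp
  | succ k ih =>
    intro μ hμ T D h hl
    obtain ⟨T', hT', hL', hU⟩ := ih (fun i => μ i.succ) (fun i => hμ i.succ) (fun i => T i.succ) 
      (fun i => D i.succ) (fun i => h i.succ) (fun i => hl i.succ)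
    have := hμ 0
    have hprod := (h 0).prod hT' hα (by positivity)
    have he := measurePreserving_piFinSuccAbove (fun i : Fin (k + 1) => μ i) 0
    have hmap := hprod.map _ he
    have hlmap := (LowAe.prod (h 0) hT' hα (by positivity) (hl 0) hL').map _ he
    have eD : D 0 ∩ (⋂ i : Fin k, D i.succ) = ⋂ i, D i := by
      ext z
      simp only [mem_inter_iff, mem_iInter]
      exact (Fin.forall_fin_succ (P := fun i => z ∈ D i)).symm
    have eα : α + k * α = ((k + 1 : ℕ) : ℝ) * α := by push_cast; ring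
    refine ⟨_, hmap.congr rfl eD eα, hlmap.congr rfl eD eα, ?_⟩
    intro x
    ext z
    simp only [mem_iUnion, mem_inter_iff, mem_iInter]
    rw [Fin.forall_fin_succ]
    have e1 : (MeasurableEquiv.piFinSuccAbove (fun _ : Fin (k + 1) => X) 0 x).1 = x 0 := rfl
    have e2 : (MeasurableEquiv.piFinSuccAbove (fun _ : Fin (k + 1) => X) 0 x).2 = fun i => x i.succ := by
      funext i
      rfl
    constructor
    · rintro ⟨n, h1, h2⟩
      rw [e1] at h1
      rw [e2] at h2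
      refine ⟨⟨_, h1⟩, ?_⟩
      have h3 : z ∈ ⋃ n, T' n (fun i => x i.succ) := mem_iUnion.2 ⟨_, h2⟩
      rw [hU] at h3
      simpa only [mem_iInter, mem_iUnion] using h3
    · rintro ⟨⟨a, h1⟩, h2⟩
      have h3 : z ∈ ⋃ n, T' n (fun i => x i.succ) := by
        rw [hU]
        simpa only [mem_iInter, mem_iUnion] using h2
      obtain ⟨b, h4⟩ := mem_iUnion.1 h3
      refine ⟨Nat.pair a b, ?_, ?_⟩
      · rw [e1, Nat.unpair_pair]; exact h1
      · rw [e2, Nat.unpair_pair]; exact h4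

end Pool.Agent.R970.Ind
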