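import Pool.Agent.R970.Ind.As
import Pool.Agent.TH966.HD.Fin
import Pool.Agent.TH966.CF.Fin
import Pool.Agent.H160R2.SA.Arm

set_option autoImplicit false
set_option maxHeartbeats 1000000

/-! The interface and the clusters as random closed sets of codimension `1/4` and `5/48`. -/

namespace Pool.Agent.R970.Ind

open MeasureTheory Metric Set Filter Topology TopologicalSpace
open Pool.Agent.TH966
open scoped ENNReal NNReal

lemma meas_sub {X : Type*} [MeasurableSpace X] {T : X → Set ℂ} 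
    (h : ∀ V : Set ℂ, IsOpen V → MeasurableSet {x | T x ⊆ V}) {S V : Set ℂ} (hS : IsCompact S)
    (hV : IsOpen V) : MeasurableSet {x | T x ∩ S ⊆ V} := by
  convert h (V ∪ Sᶜ) (hV.union hS.isClosed.isOpen_compl) using 1
  ext x
  constructor
  · intro hx z hz
    by_cases hzS : z ∈ S
    · exact Or.inl (hx ⟨hz, hzS⟩)
    · exact Or.inr hzS
  · rintro hx z ⟨h1, h2⟩
    rcases hx h1 with h3 | h3
    · exact h3
    · exact absurd h2 h3

/-- the interface -/
theorem sys_curve (R : H984N.Rect) {δ : ℕ → ℝ} (hδ : ∀ i, 0 < δ i) (hlim : Tendsto δ atTop (𝓝 0))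
    {μ : ProbabilityMeasure H984N.X} (hμ : Tendsto (fun i => R.law (δ i)) atTop (𝓝 μ)) :
    IsRS (μ : Measure H984N.X) (fun _ p => Set.range p.1) R.D (1 / 4) where
  closed _ p := (isCompact_range p.1.continuous).isClosed
  meas _ S V hS hV := by
    refine meas_sub ?_ hS hV
    intro V hV
    exact H443B.rgX_cont.measurable (NonemptyCompacts.isOpen_subsets_of_isOpen hV).measurableSet
  hit := by
    intro _ n
    obtain ⟨c, C, -, hC, hh⟩ := H934F.hit74 H985T.st_A H934SL.st_L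
    have hit := (hh (H443B.toE R) δ hδ hlim _ (H443B.limit_trace R hδ hlim hμ)).2
    refine ⟨ENNReal.ofReal (C * ((n : ℝ) + 1) ^ (1/4 : ℝ)), 1 / ((n : ℝ) + 1), 
      ENNReal.ofReal_ne_top, by positivity, ?_⟩
    intro z hz r hr hr2
    have h1 := hit z r (1 / ((n : ℝ) + 1)) hr hr2 hz
    have e : C * (r / (1 / ((n : ℝ) + 1))) ^ (1/4 : ℝ) =
        C * ((n : ℝ) + 1) ^ (1/4 : ℝ) * r ^ (1/4 : ℝ) := by
      rw [mul_assoc, ← Real.mul_rpow (by positivity) hr.le]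
      congr 2
      field_simp
    rw [e] at h1
    have h2 := HD.map_real μ (HD.hit_meas0 z r)
    have h3 : (μ : Measure H984N.X).real (HD.Hit HD.tr z r) ≤ 
        C * ((n : ℝ) + 1) ^ (1/4 : ℝ) * r ^ (1/4 : ℝ) := by
      refine le_trans (le_of_eq ?_) h1
      exact h2.symm
    rw [ENNReal.ofReal_rpow_of_pos hr, ← ENNReal.ofReal_mul (by positivity)]
    exact (ENNReal.le_ofReal_iff_toReal_le (measure_ne_top _ _) (by positivity)).mpr h3
  low := by
    intro S hS hSD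
    have h := HD.ess_trace R hδ hlim hμ hS hSD
    have e14 : (1/4 : ℝ≥0∞) = ENNReal.ofReal (1/4) := by
      rw [ENNReal.ofReal_div_of_pos (by norm_num), ENNReal.ofReal_one,
        show ENNReal.ofReal 4 = 4 by simp]
    rw [← e14, ← h]
    apply le_of_eq
    congr 1
    funext p
    rw [Set.iUnion_const]
    rfl

section

open H974 H934E Pool.Agent.H160R2.CV Pool.Agent.H389R2.Dim Pool.Agent.H389R2.CD Pool.Agent.H389R2.CL
open Pool.Agent.TH966.CF

/-- the points of the members which are not single points -/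
def Big (𝒞 : NonemptyCompacts (NonemptyCompacts ℂ)) : Set ℂ :=
  {z | ∃ K ∈ 𝒞, (K : Set ℂ).Nontrivial ∧ z ∈ K}

lemma big_eq (𝒞 : NonemptyCompacts (NonemptyCompacts ℂ)) : 
    (⋃ n : ℕ, U (1 / ((n : ℝ) + 1)) 𝒞) = Big 𝒞 := by
  ext z
  rw [mem_iUnion]
  constructor
  · rintro ⟨n, K, hK, hd, hz⟩
    refine ⟨K, hK, ?_, hz⟩
    by_contra hcon
    rw [Set.not_nontrivial_iff] at hcon
    rw [diam_subsingleton hcon] at hd
    have : (0 : ℝ) < 1 / ((n : ℝ) + 1) := by positivity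
    linarith
  · rintro ⟨K, hK, hnt, hz⟩
    have hd : 0 < diam (K : Set ℂ) := by
      obtain ⟨x, hx, y, hy, hxy⟩ := hnt
      exact lt_of_lt_of_le (dist_pos.mpr hxy) (dist_le_diam_of_mem K.isCompact.isBounded hx hy)
    obtain ⟨n, hn⟩ := exists_nat_one_div_lt hd
    exact ⟨n, K, hK, hn.le, hz⟩

/-- the clusters: almost sure lower bound -/
theorem clu_low (hAr : ArS) (R : Rect) {δ : ℕ → ℝ} (hδ : ∀ i, 0 < δ i) (hlim : Tendsto δ atTop (𝓝 0))
    {μ : ProbabilityMeasure (NonemptyCompacts (NonemptyCompacts ℂ))}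
    (hμ : Tendsto (fun i => collLaw R (δ i)) atTop (𝓝 μ)) :
    LowAe (μ : Measure (NonemptyCompacts (NonemptyCompacts ℂ))) 
      (fun n 𝒞 => U (1 / ((n : ℝ) + 1)) 𝒞) R.D (5 / 48) := by
  intro S hS hSD
  have h := dim_ae hAr R hδ hlim hμ hS hSD
  filter_upwards [h] with 𝒞 h𝒞
  rw [← h𝒞]
  refine iSup₂_le fun K hK => dimH_mono ?_
  rintro z ⟨hz, hzS⟩
  refine ⟨?_, hzS⟩
  rw [big_eq]
  exact ⟨K, hK.1, hK.2, hz⟩

/-- the clusters -/
theorem sys_clu (hAr : ArS) (R : Rect) {δ : ℕ → ℝ} (hδ : ∀ i, 0 < δ i) (hlim : Tendsto δ atTop (𝓝 0))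
    {μ : ProbabilityMeasure (NonemptyCompacts (NonemptyCompacts ℂ))}
    (hμ : Tendsto (fun i => collLaw R (δ i)) atTop (𝓝 μ)) :
    IsRS (μ : Measure (NonemptyCompacts (NonemptyCompacts ℂ))) 
      (fun n 𝒞 => U (1 / ((n : ℝ) + 1)) 𝒞) R.D (5 / 48) where
  closed n 𝒞 := (U_compact _ 𝒞).isClosed
  meas n S V hS hV := by
    refine meas_sub ?_ hS hV
    intro V hV
    exact (U_sub_open _ hV).measurableSet
  hit := by
    intro k n
    have hη : (0 : ℝ) < 1 / ((k : ℝ) + 1) := by positivity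
    set η := 1 / ((k : ℝ) + 1) with hηdef
    obtain ⟨C, hC, hup⟩ := disc_upper hAr
    obtain ⟨ρ, hρ⟩ : ∃ ρ : ℝ, ρ = min (η / 8) (1 / (4 * ((n : ℝ) + 1))) := ⟨_, rfl⟩
    have hρ0 : 0 < ρ := by rw [hρ]; positivity
    have hρ1 : ρ ≤ η / 8 := by rw [hρ]; exact min_le_left _ _
    have hρ2 : ρ ≤ 1 / (4 * ((n : ℝ) + 1)) := by rw [hρ]; exact min_le_right _ _
    refine ⟨ENNReal.ofReal (C * (2 / ρ) ^ ((5 : ℝ) / 48)), ρ / 32, ENNReal.ofReal_ne_top,
      by positivity, ?_⟩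
    intro z hz r hr hr0
    have hn0 : (0 : ℝ) < 1 / ((n : ℝ) + 1) := by positivity
    have hD : csq z ρ ⊆ R.D := by
      refine Set.Subset.trans (csq_sub_ball (w := z) (ε := 1 / ((n : ℝ) + 1)) ?_) hz
      rw [sub_self, sub_self, abs_zero, zero_add]
      have e : 1 / (4 * ((n : ℝ) + 1)) = 1 / 4 * (1 / ((n : ℝ) + 1)) := by
        field_simp
      rw [e] at hρ2
      linarith
    have hsub : Hit (U η) z r ⊆ {𝒞 : NonemptyCompacts (NonemptyCompacts ℂ) |
        ((𝒞 : Set (NonemptyCompacts ℂ)) ∩ Vc z (2 * r) ρ).Nonempty} := by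
      rintro 𝒞 ⟨x, ⟨K, h1, h2, h3⟩, h4⟩
      refine ⟨K, h1, ⟨x, h3, ?_⟩, ?_⟩
      · rw [mem_closedBall, Complex.dist_eq] at h4
        have k1 := (Complex.abs_re_le_norm (x - z)).trans h4
        have k2 := (Complex.abs_im_le_norm (x - z)).trans h4
        rw [Complex.sub_re] at k1
        rw [Complex.sub_im] at k2
        exact ⟨by linarith, by linarith⟩
      · by_contra hcon
        rw [Set.not_nonempty_iff_eq_empty] at hcon
        have hK : (K : Set ℂ) ⊆ csq z ρ := by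
          intro y hy
          by_contra hy2
          have : y ∈ (K : Set ℂ) ∩ (csq z ρ)ᶜ := ⟨hy, hy2⟩
          rw [hcon] at this
          exact this
        have := csq_diam hρ0.le hK
        linarith
    refine (measure_mono hsub).trans ?_
    have h5 := coll_lim_le R hμ (isOpen_Vc z (2 * r) ρ) (q := C * (2 * r / ρ) ^ ((5 : ℝ) / 48)) (by
      apply Eventually.frequently
      filter_upwards [hlim.eventually_lt_const (show (0 : ℝ) < 2 * r / 16 by positivity)] with i hi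
      exact hup R z ρ (2 * r) (δ i) (by positivity) (by linarith) hD (hδ i) (by linarith))
    refine h5.trans (le_of_eq ?_)
    rw [ENNReal.ofReal_rpow_of_pos hr, ← ENNReal.ofReal_mul (by positivity), mul_assoc,
      ← Real.mul_rpow (by positivity) hr.le]
    congr 3
    ring
  low := by
    intro S hS hSD
    have h2 := clu_low hAr R hδ hlim hμ S hS hSD
    calc dimH S - ENNReal.ofReal (5 / 48) = essSup (fun _ : NonemptyCompacts (NonemptyCompacts ℂ) => 
          dimH S - ENNReal.ofReal (5 / 48)) (μ : Measure (NonemptyCompacts (NonemptyCompacts ℂ))) := by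
          rw [essSup_const _ (IsProbabilityMeasure.ne_zero _)]
      _ ≤ _ := essSup_mono_ae h2

end

/-- The common points of the curves and of the large members. -/
def Common {k l : ℕ} (γ : Fin k → H984N.X) (𝒞 : Fin l → NonemptyCompacts (NonemptyCompacts ℂ)) : 
    Set ℂ :=
  {z | (∀ i, z ∈ Set.range (γ i).1) ∧ ∀ j, ∃ K ∈ 𝒞 j, (K : Set ℂ).Nontrivial ∧ z ∈ K}

/-- The intersection of the domains. -/
def Dom {k l : ℕ} (R : Fin k → H984N.Rect) (R' : Fin l → H934E.Rect) : Set ℂ :=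
  {z | (∀ i, z ∈ (R i).D) ∧ ∀ j, z ∈ (R' j).D}

lemma dom_open {k l : ℕ} (R : Fin k → H984N.Rect) (R' : Fin l → H934E.Rect) : IsOpen (Dom R R') := by
  have e : Dom R R' = (⋂ i, (R i).D) ∩ ⋂ j, (R' j).D := by
    ext z
    simp [Dom]
  rw [e]
  exact (isOpen_iInter_of_finite fun i => H443B.isOpen_D (R i)).inter 
    (isOpen_iInter_of_finite fun j => CF.isOpen_D (R' j))

/-- the curves -/
theorem sys_curves {k : ℕ} (R : Fin k → H984N.Rect) 
    {δ : Fin k → ℕ → ℝ} (hδ : ∀ i n, 0 < δ i n) (hlim : ∀ i, Tendsto (δ i) atTop (𝓝 0))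
    {μ : Fin k → ProbabilityMeasure H984N.X} 
    (hμ : ∀ i, Tendsto (fun n => (R i).law (δ i n)) atTop (𝓝 (μ i))) :
    ∃ T : ℕ → (Fin k → H984N.X) → Set ℂ, IsRS (Measure.pi fun i => (μ i : Measure H984N.X)) T 
      (⋂ i, (R i).D) (k * (1 / 4)) ∧ ∀ x, (⋃ n, T n x) = ⋂ i, Set.range (x i).1 := by
  obtain ⟨T1, h1, hU1⟩ := pi_system (by norm_num : (0 : ℝ) ≤ 1 / 4) k (fun i => (μ i : Measure H984N.X)) 
    (fun i => inferInstance) _ _ (fun i => sys_curve (R i) (hδ i) (hlim i) (hμ i))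
  refine ⟨T1, h1, fun x => ?_⟩
  rw [hU1]
  simp only [Set.iUnion_const]

/-- the clusters -/
theorem sys_clus (hAr : Pool.Agent.H389R2.CD.ArS) {l : ℕ} (R' : Fin l → H934E.Rect)
    {δ' : Fin l → ℕ → ℝ} (hδ' : ∀ i n, 0 < δ' i n) (hlim' : ∀ i, Tendsto (δ' i) atTop (𝓝 0))
    {ν : Fin l → ProbabilityMeasure (NonemptyCompacts (NonemptyCompacts ℂ))}
    (hν : ∀ i, Tendsto (fun n => Pool.Agent.H389R2.CL.collLaw (R' i) (δ' i n)) atTop (𝓝 (ν i))) :
    ∃ T : ℕ → (Fin l → NonemptyCompacts (NonemptyCompacts ℂ)) → Set ℂ, 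
      IsRS (Measure.pi fun i => (ν i : Measure (NonemptyCompacts (NonemptyCompacts ℂ)))) T 
        (⋂ i, (R' i).D) (l * (5 / 48)) ∧ 
      LowAe (Measure.pi fun i => (ν i : Measure (NonemptyCompacts (NonemptyCompacts ℂ)))) T 
        (⋂ i, (R' i).D) (l * (5 / 48)) ∧ ∀ x, (⋃ n, T n x) = ⋂ i, Big (x i) := by
  obtain ⟨T2, h2, hl2, hU2⟩ := pi_system_ae (by norm_num : (0 : ℝ) ≤ 5 / 48) l 
    (fun i => (ν i : Measure (NonemptyCompacts (NonemptyCompacts ℂ)))) 
    (fun i => inferInstance) _ _ (fun i => sys_clu hAr (R' i) (hδ' i) (hlim' i) (hν i))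
    (fun i => clu_low hAr (R' i) (hδ' i) (hlim' i) (hν i))
  refine ⟨T2, h2, hl2, fun x => ?_⟩
  rw [hU2]
  simp only [big_eq]

lemma common_eq {k l : ℕ} (γ : Fin k → H984N.X) (𝒞 : Fin l → NonemptyCompacts (NonemptyCompacts ℂ)) :
    Common γ 𝒞 = (⋂ i, Set.range (γ i).1) ∩ ⋂ j, Big (𝒞 j) := by
  ext z
  simp only [Common, Big, mem_inter_iff, mem_iInter]
  rfl

lemma dom_eq {k l : ℕ} (R : Fin k → H984N.Rect) (R' : Fin l → H934E.Rect) : 
    Dom R R' = (⋂ i, (R i).D) ∩ ⋂ j, (R' j).D := by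
  ext z
  simp [Dom]

/-- the combined system -/
theorem sys_all (hAr : Pool.Agent.H389R2.CD.ArS) {k l : ℕ} (R : Fin k → H984N.Rect) (R' : Fin l → H934E.Rect)
    {δ : Fin k → ℕ → ℝ} (hδ : ∀ i n, 0 < δ i n) (hlim : ∀ i, Tendsto (δ i) atTop (𝓝 0))
    {μ : Fin k → ProbabilityMeasure H984N.X} 
    (hμ : ∀ i, Tendsto (fun n => (R i).law (δ i n)) atTop (𝓝 (μ i)))
    {δ' : Fin l → ℕ → ℝ} (hδ' : ∀ i n, 0 < δ' i n) (hlim' : ∀ i, Tendsto (δ' i) atTop (𝓝 0))
    {ν : Fin l → ProbabilityMeasure (NonemptyCompacts (NonemptyCompacts ℂ))}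
    (hν : ∀ i, Tendsto (fun n => Pool.Agent.H389R2.CL.collLaw (R' i) (δ' i n)) atTop (𝓝 (ν i))) :
    (∃ T : ℕ → (Fin k → H984N.X) × (Fin l → NonemptyCompacts (NonemptyCompacts ℂ)) → Set ℂ,
      IsRS ((Measure.pi fun i => (μ i : Measure H984N.X)).prod (Measure.pi fun j => 
        (ν j : Measure (NonemptyCompacts (NonemptyCompacts ℂ))))) T (Dom R R') (k / 4 + 5 * l / 48) ∧
      ∀ x, (⋃ n, T n x) = Common x.1 x.2) ∧ 
    (0 < l → ∀ S : Set ℂ, IsSigmaCompact S → S ⊆ Dom R R' →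
      ∀ᵐ x ∂((Measure.pi fun i => (μ i : Measure H984N.X)).prod (Measure.pi fun j => 
        (ν j : Measure (NonemptyCompacts (NonemptyCompacts ℂ))))), 
        dimH (Common x.1 x.2 ∩ S) = dimH ((⋂ i, Set.range (x.1 i).1) ∩ S) - ENNReal.ofReal (5 * l / 48)) := by
  obtain ⟨T1, h1, hU1⟩ := sys_curves R hδ hlim hμ
  obtain ⟨T2, h2, hl2, hU2⟩ := sys_clus hAr R' hδ' hlim' hν
  refine ⟨⟨_, (h1.prod h2 (by positivity) (by positivity)).congr rfl (dom_eq R R').symm (by ring), ?_⟩, ?_⟩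
  · intro x
    rw [union_prod T1 T2 x, hU1, hU2, common_eq]
  · intro hl S hS hSD
    have hl' : (0 : ℝ) < l := by exact_mod_cast hl
    have hD2 : IsOpen (⋂ j, (R' j).D) := isOpen_iInter_of_finite fun j => CF.isOpen_D (R' j)
    have h3 := cond h1 h2 (by positivity) (by positivity) hD2 hl2 hS (by rwa [← dom_eq])
    filter_upwards [h3] with x hx
    rw [hU1, hU2, ← common_eq] at hx
    rw [hx]
    congr 2
    ring

end Pool.Agent.R970.Ind
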