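import Pool.Agent.R970.Ind.Abs

set_option autoImplicit false

/-! Finite products and the codimension formula. -/

namespace Pool.Agent.R970.Ind

open Pool.Agent.TH966.CF MeasureTheory Metric Set Filter Topology
open scoped ENNReal NNReal

variable {X Y : Type*} [MeasurableSpace X] [MeasurableSpace Y] {μ : Measure X} {ν : Measure Y}
  {T : ℕ → X → Set ℂ} {T' : ℕ → Y → Set ℂ} {D D' : Set ℂ} {α α' : ℝ}

lemma IsRS.univ [IsProbabilityMeasure μ] : IsRS μ (fun _ _ => Set.univ) Set.univ 0 where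
  closed _ _ := isClosed_univ
  meas _ S V _ _ := MeasurableSet.const _
  hit := by
    intro n m
    refine ⟨1, 1, ENNReal.one_ne_top, one_pos, ?_⟩
    intro z _ r _ _
    rw [ENNReal.rpow_zero, mul_one]
    exact prob_le_one
  low := by
    intro S _ _
    have : (fun _ : X => dimH ((⋃ _ : ℕ, (Set.univ : Set ℂ)) ∩ S)) = fun _ => dimH S := by
      funext x
      rw [Set.iUnion_const, Set.univ_inter]
    rw [this, essSup_const _ (IsProbabilityMeasure.ne_zero μ)]
    simp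

lemma IsRS.map (h : IsRS ν T' D α) (e : X ≃ᵐ Y) (he : MeasurePreserving e μ ν) :
    IsRS μ (fun n x => T' n (e x)) D α where
  closed n x := h.closed n (e x)
  meas n S V hS hV := e.measurable (h.meas n S V hS hV)
  hit := by
    intro n m
    obtain ⟨C, r0, hC, hr0, hb⟩ := h.hit n m
    refine ⟨C, r0, hC, hr0, ?_⟩
    intro z hz r hr hrr
    have h1 := hb z hz r hr hrr
    rw [← he.measure_preimage (h.hit_meas n z r).nullMeasurableSet] at h1
    exact h1
  low := by
    intro S hS hSD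
    refine (h.low S hS hSD).trans ?_
    refine essSup_le_of_ae_le _ ?_
    have h1 : ∀ᵐ x ∂μ, dimH ((⋃ n, T' n (e x)) ∩ S) ≤ essSup (fun x => dimH ((⋃ n, T' n (e x)) ∩ S)) μ :=
      ENNReal.ae_le_essSup _
    rw [← he.map_eq]
    exact (e.measurableEmbedding.ae_map_iff).2 h1

lemma IsRS.congr (h : IsRS μ T D α) {T2 : ℕ → X → Set ℂ} {D2 : Set ℂ} {α2 : ℝ} (h1 : T = T2)
    (h2 : D = D2) (h3 : α = α2) : IsRS μ T2 D2 α2 := by
  subst h1 h2 h3; exact h

theorem pi_system (hα : 0 ≤ α) : ∀ (k : ℕ) (μ : Fin k → Measure X) (_ : ∀ i, IsProbabilityMeasure (μ i))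
    (T : Fin k → ℕ → X → Set ℂ) (D : Fin k → Set ℂ) (_ : ∀ i, IsRS (μ i) (T i) (D i) α),
    ∃ T' : ℕ → (Fin k → X) → Set ℂ, IsRS (Measure.pi μ) T' (⋂ i, D i) (k * α) ∧ 
      ∀ x, (⋃ n, T' n x) = ⋂ i, ⋃ n, T i n (x i) := by
  intro k
  induction k with
  | zero =>
    intro μ hμ T D h
    refine ⟨fun _ _ => Set.univ, ?_, ?_⟩
    · refine (IsRS.univ (μ := Measure.pi μ)).congr rfl ?_ ?_
      · simp
      · simp
    · intro x
      rw [Set.iUnion_const]
      simp
  | succ k ih =>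
    intro μ hμ T D h
    obtain ⟨T', hT', hU⟩ := ih (fun i => μ i.succ) (fun i => hμ i.succ) (fun i => T i.succ) 
      (fun i => D i.succ) (fun i => h i.succ)
    have := hμ 0
    have hprod := (h 0).prod hT' hα (by positivity)
    have he := measurePreserving_piFinSuccAbove (fun i : Fin (k + 1) => μ i) 0
    have hmap := hprod.map _ he
    refine ⟨_, hmap.congr rfl ?_ ?_, ?_⟩
    · ext z
      simp only [mem_inter_iff, mem_iInter]
      exact (Fin.forall_fin_succ (P := fun i => z ∈ D i)).symm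
    · push_cast; ring
    · intro x
      ext z
      simp only [mem_iUnion, mem_inter_iff, mem_iInter]
      rw [Fin.forall_fin_succ]
      have e1 : (MeasurableEquiv.piFinSuccAbove (fun _ : Fin (k + 1) => X) 0 x).1 = x 0 := rfl
      have e2 : (MeasurableEquiv.piFinSuccAbove (fun _ : Fin (k + 1) => X) 0 x).2 = fun i => x i.succ := by
        funext i
        rfl
      constructor
      · rintro ⟨n, h1, h2⟩
        rw [e1] at h1
        rw [e2] at h2
        refine ⟨⟨_, h1⟩, ?_⟩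
        have h3 : z ∈ ⋃ n, T' n (fun i => x i.succ) := mem_iUnion.2 ⟨_, h2⟩
        rw [hU] at h3
        simpa only [mem_iInter, mem_iUnion] using h3
      · rintro ⟨⟨a, h1⟩, h2⟩
        have h3 : z ∈ ⋃ n, T' n (fun i => x i.succ) := by
          rw [hU]
          simpa only [mem_iInter, mem_iUnion] using h2
        obtain ⟨b, h4⟩ := mem_iUnion.1 h3
        refine ⟨Nat.pair a b, ?_, ?_⟩
        · rw [e1, Nat.unpair_pair]; exact h1
        · rw [e2, Nat.unpair_pair]; exact h4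

/-- almost sure upper bound for arbitrary sets -/
theorem IsRS.upper (h : IsRS μ T D α) (hα : 0 < α) (hD : IsOpen D) {A : Set ℂ} (hA : A ⊆ D) :
    ∀ᵐ x ∂μ, dimH ((⋃ n, T n x) ∩ A) ≤ dimH A - ENNReal.ofReal α ∧ 
      (μH[α] A = 0 → (⋃ n, T n x) ∩ A = ∅) := by
  have h1 : ∀ n, ∀ᵐ x ∂μ, dimH (T n x ∩ A) ≤ dimH A - ENNReal.ofReal α ∧ 
      (μH[α] A = 0 → T n x ∩ A = ∅) := by
    intro n
    refine dim_inter hα hD hA (h.hit_meas n) ?_
    intro m
    obtain ⟨C, r0, hC, hr0, hb⟩ := h.hit n m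
    exact ⟨C, r0, hC, hr0, fun z hz r hr hrr => hb z hz.2 r hr hrr⟩
  filter_upwards [ae_all_iff.2 h1] with x hx
  constructor
  · rw [Set.iUnion_inter, dimH_iUnion]
    exact iSup_le fun n => (hx n).1
  · intro h0
    rw [Set.iUnion_inter]
    exact Set.iUnion_eq_empty.2 fun n => (hx n).2 h0

/-- the essential supremum of the dimension -/
theorem IsRS.ess (h : IsRS μ T D α) (hα : 0 < α) (hD : IsOpen D) {S : Set ℂ} (hS : IsSigmaCompact S) 
    (hSD : S ⊆ D) : essSup (fun x => dimH ((⋃ n, T n x) ∩ S)) μ = dimH S - ENNReal.ofReal α := by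
  apply le_antisymm _ (h.low S hS hSD)
  refine essSup_le_of_ae_le _ ?_
  filter_upwards [h.upper hα hD hSD] with x hx using hx.1

lemma open_sigma {O : Set ℂ} (hO : IsOpen O) : IsSigmaCompact O := by
  obtain ⟨F, hF, -, hU, -⟩ := hO.exists_iUnion_isClosed
  rw [← hU]
  refine isSigmaCompact_iUnion _ fun n => ?_
  have := sigma_inter (isSigmaCompact_univ (X := ℂ)) (hF n)
  rwa [Set.inter_univ] at this

lemma dim_open2 {O : Set ℂ} (hO : IsOpen O) (hne : O.Nonempty) : dimH O = 2 := by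
  have h := Real.dimH_of_nonempty_interior (E := ℂ) (s := O) (by rwa [hO.interior_eq])
  rw [h, Complex.finrank_real_complex]
  norm_num

/-- positive probability of a common point -/
theorem IsRS.pos (h : IsRS μ T D α) (hα2 : α < 2) (hD : IsOpen D) (hne : D.Nonempty) :
    0 < μ {x | ((⋃ n, T n x) ∩ D).Nonempty} := by
  rw [pos_iff_ne_zero]
  intro h0
  have h1 := h.low D (open_sigma hD) subset_rfl
  rw [dim_open2 hD hne] at h1
  have h2 : essSup (fun x => dimH ((⋃ n, T n x) ∩ D)) μ ≤ 0 := by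
    refine essSup_le_of_ae_le _ ?_
    have h3 : ∀ᵐ x ∂μ, ¬ ((⋃ n, T n x) ∩ D).Nonempty := by
      rw [ae_iff]
      simpa using h0
    filter_upwards [h3] with x hx
    rw [Set.not_nonempty_iff_eq_empty] at hx
    show dimH ((⋃ n, T n x) ∩ D) ≤ 0
    rw [hx, dimH_empty]
  have h4 := h1.trans h2
  rw [tsub_le_iff_right, zero_add] at h4
  have h5 : ENNReal.ofReal α < 2 := by
    rw [show (2 : ℝ≥0∞) = ENNReal.ofReal 2 by simp]
    rcases le_or_gt α 0 with h6 | h6
    · rw [ENNReal.ofReal_of_nonpos h6]; simp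
    · exact (ENNReal.ofReal_lt_ofReal_iff (by norm_num)).2 hα2
  exact absurd h4 (not_le.2 h5)

/-- the event is measurable -/
theorem IsRS.meas_nonempty (h : IsRS μ T D α) {S : Set ℂ} (hS : IsSigmaCompact S) :
    MeasurableSet {x | ((⋃ n, T n x) ∩ S).Nonempty} := by
  obtain ⟨K, hK, rfl⟩ := hS
  have e : {x | ((⋃ n, T n x) ∩ ⋃ m, K m).Nonempty} = ⋃ n, ⋃ m, {x | T n x ∩ K m ⊆ ∅}ᶜ := by
    ext x
    simp only [mem_iUnion, mem_compl_iff]
    constructor
    · rintro ⟨z, h1, h2⟩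
      obtain ⟨n, h1⟩ := mem_iUnion.1 h1
      obtain ⟨m, h2⟩ := mem_iUnion.1 h2
      exact ⟨n, m, fun h3 => h3 ⟨h1, h2⟩⟩
    · rintro ⟨n, m, h3⟩
      have h3' : ¬ (T n x ∩ K m ⊆ ∅) := h3
      rw [Set.subset_empty_iff, ← Ne, ← Set.nonempty_iff_ne_empty] at h3'
      obtain ⟨z, h4, h5⟩ := h3'
      exact ⟨z, mem_iUnion.2 ⟨n, h4⟩, mem_iUnion.2 ⟨m, h5⟩⟩
  rw [e]
  exact MeasurableSet.iUnion fun n => MeasurableSet.iUnion fun m => (h.meas n _ _ (hK m) isOpen_empty).compl

/-- almost surely no common point -/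
theorem IsRS.none (h : IsRS μ T D α) (hα2 : 2 < α) (hD : IsOpen D) :
    ∀ᵐ x ∂μ, (⋃ n, T n x) ∩ D = ∅ := by
  filter_upwards [h.upper (by linarith) hD subset_rfl] with x hx
  apply hx.2
  have h1 : dimH D ≤ 2 := by
    rcases D.eq_empty_or_nonempty with rfl | hne
    · rw [dimH_empty]; exact zero_le
    · rw [dim_open2 hD hne]
  have h2 : dimH D < ((Real.toNNReal α : ℝ≥0) : ℝ≥0∞) := by
    refine h1.trans_lt ?_
    rw [show (2 : ℝ≥0∞) = ENNReal.ofReal 2 by simp]
    exact (ENNReal.ofReal_lt_ofReal_iff (by linarith)).2 hα2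
  have h3 := hausdorffMeasure_of_dimH_lt h2
  rwa [Real.coe_toNNReal _ (by linarith)] at h3

end Pool.Agent.R970.Ind
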